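import Mathlib
import Pool.Agent.H565Z.ZafDefs
import Pool.Agent.H565Z.ZafB

set_option autoImplicit false

namespace Pool.Agent.Results.MP_849d05_an.AZafranStrict

open Pool.Agent.H565Z.Fs

/-- For every discrete group with an infinite abelian subgroup, the Zafran ideal contains an
element at distance at least `1/50` from `r(A(G))`. -/
theorem result :
    ∀ (G : Type) [Group G],
      (∃ A : Subgroup G, (A : Set G).Infinite ∧ ∀ a ∈ A, ∀ b ∈ A, a * b = b * a) →
      ∃ f ∈ NaturalSpectrum G, Filter.Tendsto f Filter.cofinite (nhds 0) ∧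
        ∀ ν ∈ FourierRadical G, 1 / 50 ≤ fsNorm (f - ν) :=
  fun _ _ ⟨A, hA, hc⟩ => zaf_final A hA hc

end Pool.Agent.Results.MP_849d05_an.AZafranStrict
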